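import Pool.Agent.Helper64.Burn.Paths

/-! # Project GL, module 3: the burning number under isomorphisms and for spanning trees -/

set_option autoImplicit false

namespace Pool.Agent.Helper51.GL

open N441b2449

/-- Distances do not grow under a homomorphism. -/
theorem dist_hom_le {V W : Type*} {G : SimpleGraph V} {H : SimpleGraph W} (f : G →g H) {u v : V}
    (h : G.Reachable u v) : H.dist (f u) (f v) ≤ G.dist u v := by
  obtain ⟨w, hw⟩ := h.exists_walk_length_eq_dist
  have h1 := SimpleGraph.dist_le (w.map f)
  rw [SimpleGraph.Walk.length_map] at h1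
  omega

/-- There is a burning sequence of length `burningNumber G`. -/
theorem exists_seq {V : Type*} [Finite V] (G : SimpleGraph V) :
    ∃ x : Fin (burningNumber G) → V, IsBurningSequence G x := by
  have h1 : {k | ∃ x : Fin k → V, IsBurningSequence G x}.Nonempty := by
    cases nonempty_fintype V
    refine ⟨Fintype.card V, fun i => (Fintype.equivFin V).symm i, fun v => ?_⟩
    refine ⟨Fintype.equivFin V v, ?_, ?_⟩
    · simp only [Equiv.symm_apply_apply]
      exact SimpleGraph.Reachable.refl v
    · simp only [Equiv.symm_apply_apply, SimpleGraph.dist_self, Nat.zero_add]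
      exact (Fintype.equivFin V v).2
  exact Nat.sInf_mem h1

/-- A surjective homomorphism does not increase the burning number. -/
theorem burn_hom {V W : Type*} [Finite V] {G : SimpleGraph V} {H : SimpleGraph W} (f : G →g H)
    (hf : Function.Surjective f) : burningNumber H ≤ burningNumber G := by
  obtain ⟨x, hx⟩ := exists_seq G
  refine Nat.sInf_le ⟨fun i => f (x i), fun w => ?_⟩
  obtain ⟨v, rfl⟩ := hf w
  obtain ⟨i, h1, h2⟩ := hx v
  have h3 := dist_hom_le f h1
  exact ⟨i, h1.map f, by
    show H.dist (f (x i)) (f v) + (i : ℕ) < burningNumber G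
    omega⟩

/-- More edges do not increase the burning number. -/
theorem burn_mono {V : Type*} [Finite V] {T G : SimpleGraph V} (h : T ≤ G) :
    burningNumber G ≤ burningNumber T :=
  burn_hom (SimpleGraph.Hom.ofLE h) fun v => ⟨v, rfl⟩

/-- Isomorphic graphs have the same burning number. -/
theorem burn_iso {V W : Type*} [Finite V] [Finite W] {G : SimpleGraph V} {H : SimpleGraph W}
    (e : G ≃g H) : burningNumber G = burningNumber H :=
  le_antisymm (burn_hom e.symm.toHom e.symm.surjective) (burn_hom e.toHom e.surjective)

end Pool.Agent.Helper51.GL
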