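import Mathlib

/-! # Project GL, module 2: the numbers -/

set_option autoImplicit false

namespace Pool.Agent.Helper51.GL

open Filter

/-- The polylogarithmic error is small against a small power of `k`. -/
theorem exists_num : ∃ k₁ : ℕ, ∀ k : ℕ, k₁ ≤ k →
    2 ^ 200 * (⌈Real.log k ^ 15⌉₊ + 2) ^ 20 ≤ k := by
  have h1 : ∀ᶠ x : ℝ in atTop, |Real.log x ^ 300| ≤ (1 / 2 ^ 240) * |x| := by
    have h2 := (Real.isLittleO_pow_log_id_atTop (n := 300)).bound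
      (show (0 : ℝ) < 1 / 2 ^ 240 by positivity)
    filter_upwards [h2] with x hx
    simpa [Real.norm_eq_abs] using hx
  have h2 : ∀ᶠ x : ℝ in atTop, Real.exp 1 ≤ x := eventually_ge_atTop _
  have h3 : ∀ᶠ k : ℕ in atTop, |Real.log (k : ℝ) ^ 300| ≤ (1 / 2 ^ 240) * |(k : ℝ)| ∧
      Real.exp 1 ≤ (k : ℝ) := tendsto_natCast_atTop_atTop.eventually (h1.and h2)
  obtain ⟨k₁, hk₁⟩ := eventually_atTop.1 h3
  refine ⟨k₁, fun k hk => ?_⟩
  obtain ⟨h4, h5⟩ := hk₁ k hk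
  have hlog : 1 ≤ Real.log k := by
    rw [Real.le_log_iff_exp_le (lt_of_lt_of_le (Real.exp_pos 1) h5)]
    exact h5
  have hp : (1 : ℝ) ≤ Real.log k ^ 15 := one_le_pow₀ hlog
  have h6 : ((⌈Real.log k ^ 15⌉₊ : ℕ) : ℝ) ≤ Real.log k ^ 15 + 1 :=
    (Nat.ceil_lt_add_one (by linarith)).le
  have h7 : ((⌈Real.log k ^ 15⌉₊ : ℕ) : ℝ) + 2 ≤ 4 * Real.log k ^ 15 := by linarith
  have h8 : (((⌈Real.log k ^ 15⌉₊ : ℕ) : ℝ) + 2) ^ 20 ≤ (4 * Real.log k ^ 15) ^ 20 :=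
    pow_le_pow_left₀ (by positivity) h7 20
  have h9 : (4 * Real.log k ^ 15) ^ 20 = 2 ^ 40 * Real.log k ^ 300 := by
    rw [mul_pow, ← pow_mul]
    norm_num
  have h10 : Real.log k ^ 300 ≤ (1 / 2 ^ 240) * (k : ℝ) := by
    have := (le_abs_self _).trans h4
    rwa [abs_of_nonneg (Nat.cast_nonneg k : (0 : ℝ) ≤ k)] at this
  have h11 : (2 : ℝ) ^ 200 * (((⌈Real.log k ^ 15⌉₊ : ℕ) : ℝ) + 2) ^ 20 ≤ k := by
    calc (2 : ℝ) ^ 200 * (((⌈Real.log k ^ 15⌉₊ : ℕ) : ℝ) + 2) ^ 20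
        ≤ 2 ^ 200 * (2 ^ 40 * Real.log k ^ 300) := by
          rw [← h9]
          exact mul_le_mul_of_nonneg_left h8 (by positivity)
      _ ≤ 2 ^ 200 * (2 ^ 40 * ((1 / 2 ^ 240) * (k : ℝ))) := by
          refine mul_le_mul_of_nonneg_left ?_ (by positivity)
          exact mul_le_mul_of_nonneg_left h10 (by positivity)
      _ = k := by ring
  exact_mod_cast h11

end Pool.Agent.Helper51.GL
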