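import Pool.Agent.Helper51.GL.Root
import Pool.Agent.Helper51.GL.Num
import Pool.Agent.Helper51.GL.Iso
import Pool.Agent.Helper67.HS.Main
import Pool.Agent.Helper84.NC.Final

/-!
# Project GL, module 4: the burning number conjecture for all large graphs

Hard stability (`Pool.Agent.Helper67.HS.hard_stab`) and the covering theorem for trees with almost
`k` vertices of height `h` for almost all `h < k` (`Pool.Agent.Helper84.NC.nc`) give the theorem.
-/

set_option autoImplicit false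

universe u

namespace Pool.Agent.Helper51.GL

open Finset Pool.Agent.Helper51.ST N441b2449 Pool.Agent.Helper84

/-- The heights of the two projects agree. -/
theorem ht_eq {V : Type*} [Fintype V] [DecidableEq V] {T : SimpleGraph V} {X : NC.TM V}
    (hX : ∀ x y, X.d x y = T.dist x y) (r v : V) :
    Pool.Agent.Helper67.HS.ht T univ r v = NC.ht X r v := by
  unfold Pool.Agent.Helper67.HS.ht NC.ht
  have h1 : NC.sub X r v = univ.filter fun w => T.dist r v + T.dist v w = T.dist r w := by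
    ext w
    rw [NC.mem_sub, mem_filter]
    unfold NC.Bel
    rw [hX, hX, hX]
    simp
  rw [h1]
  congr 1
  funext w
  exact (hX v w).symm

/-- The numbers of vertices of the two projects. -/
theorem N_le {V : Type*} [Fintype V] [DecidableEq V] {T : SimpleGraph V} (hT : T.IsTree)
    {X : NC.TM V} (hX : ∀ x y, X.d x y = T.dist x y) {x : RT} {r : V} (H : Tr T x univ r) (h : ℕ) :
    x.N (h + 1) ≤ NC.Nh X r h := by
  classical
  rw [Pool.Agent.Helper67.HS.N_card hT H (by omega)]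
  unfold NC.Nh
  refine Finset.card_le_card fun v hv => ?_
  simp only [mem_filter, mem_univ, true_and] at hv ⊢
  rw [← ht_eq hX]
  omega

/-- The sum over the heights. -/
theorem sum_le {V : Type*} [Fintype V] [DecidableEq V] {T : SimpleGraph V} (hT : T.IsTree)
    {X : NC.TM V} (hX : ∀ x y, X.d x y = T.dist x y) {x : RT} {r : V} (H : Tr T x univ r) (k : ℕ) :
    ∑ h ∈ range k, (k - NC.Nh X r h) ≤ ∑ t ∈ Icc 1 k, (k - x.N t) := by
  have h1 : ∑ t ∈ Icc 1 k, (k - x.N t) = ∑ h ∈ range k, (k - x.N (h + 1)) := by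
    rw [Finset.range_eq_Ico, Finset.sum_Ico_add' (fun t => k - x.N t) 0 k 1]
    refine Finset.sum_congr ?_ fun _ _ => rfl
    ext t
    simp only [mem_Icc, mem_Ico]
    omega
  rw [h1]
  refine Finset.sum_le_sum fun h _ => ?_
  have := N_le hT hX H h
  omega

/-- Large trees. -/
theorem tree_main : ∃ k₀ : ℕ, ∀ {V : Type u} [Fintype V] {T : SimpleGraph V}, T.IsTree →
    ∀ {k : ℕ}, k₀ ≤ k → Fintype.card V ≤ k ^ 2 → burningNumber T ≤ k := by
  obtain ⟨k₀, hk₀⟩ := Pool.Agent.Helper67.HS.hard_stab.{u}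
  obtain ⟨k₁, hk₁⟩ := exists_num
  refine ⟨max k₀ k₁, fun {V} _ {T} hT {k} hk hc => ?_⟩
  classical
  by_contra hcon
  push Not at hcon
  obtain ⟨X, hX⟩ := NC.exists_tm hT
  have : Nonempty V := hT.connected.nonempty
  obtain ⟨r, hr⟩ := NC.exists_cen X
  obtain ⟨x, H⟩ := exists_tr_root hT.connected r
  have h1 := hk₀ hT H ((le_max_left _ _).trans hk) hc hcon
  have h2 := hk₁ k ((le_max_right _ _).trans hk)
  have h3 : ∑ t ∈ Icc 1 k, (k - x.N t) ≤ ⌈Real.log k ^ 15⌉₊ * k := by
    have h4 : ((∑ t ∈ Icc 1 k, (k - x.N t) : ℕ) : ℝ) ≤ ((⌈Real.log k ^ 15⌉₊ * k : ℕ) : ℝ) := by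
      push_cast at h1 ⊢
      refine h1.trans ?_
      rw [mul_comm]
      exact mul_le_mul_of_nonneg_right (Nat.le_ceil _) (Nat.cast_nonneg k)
    exact_mod_cast h4
  have h5 := (sum_le hT hX H k).trans h3
  have h6 := NC.burn_le (G := T) hT le_rfl hX hc h5 hr h2
  omega

/-- Large connected graphs, for one universe. -/
theorem graph_main : ∃ k₀ : ℕ, ∀ {V : Type u} [Fintype V] {G : SimpleGraph V}, G.Connected →
    ∀ {k : ℕ}, k₀ ≤ k → Fintype.card V ≤ k ^ 2 → burningNumber G ≤ k := by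
  obtain ⟨k₀, hk₀⟩ := tree_main.{u}
  refine ⟨k₀, fun {V} _ {G} hG {k} hk hc => ?_⟩
  obtain ⟨T, hTG, hT⟩ := hG.exists_isTree_le
  exact (burn_mono hTG).trans (hk₀ hT hk hc)

/-- The burning number conjecture for all large graphs: there is a number `n₀` such that every
connected graph on `n ≥ n₀` vertices has burning number at most `⌈√n⌉`. -/
theorem burning_large : ∃ n₀ : ℕ, ∀ (V : Type u) [Fintype V] (G : SimpleGraph V), G.Connected →
    n₀ ≤ Fintype.card V → burningNumber G ≤ ⌈Real.sqrt (Fintype.card V)⌉₊ := by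
  obtain ⟨k₀, hk₀⟩ := graph_main.{0}
  refine ⟨k₀ ^ 2, fun V _ G hG hn => ?_⟩
  classical
  obtain ⟨n, hn'⟩ : ∃ n, n = Fintype.card V := ⟨_, rfl⟩
  have e : V ≃ Fin n := Fintype.equivFinOfCardEq hn'.symm
  have hiso : G ≃g G.map e.toEmbedding := SimpleGraph.Iso.map e G
  rw [burn_iso hiso]
  refine hk₀ (hiso.connected_iff.1 hG) ?_ ?_
  · have h1 : ((k₀ : ℕ) : ℝ) ≤ Real.sqrt (Fintype.card V) := by
      refine Real.le_sqrt_of_sq_le ?_
      exact_mod_cast hn
    exact_mod_cast h1.trans (Nat.le_ceil _)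
  · rw [Fintype.card_fin, hn']
    have h3 : Real.sqrt (Fintype.card V) ≤ (⌈Real.sqrt (Fintype.card V)⌉₊ : ℝ) := Nat.le_ceil _
    have h4 : ((Fintype.card V : ℕ) : ℝ) ≤ ((⌈Real.sqrt (Fintype.card V)⌉₊ : ℕ) : ℝ) ^ 2 := by
      rw [← Real.sqrt_le_left (by positivity)]
      exact h3
    exact_mod_cast h4

end Pool.Agent.Helper51.GL
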