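import Pool.Agent.Helper51.ST.Basic

/-! # Project GL, module 1: the shape of a spanning tree for a given root -/

set_option autoImplicit false

namespace Pool.Agent.Helper51.GL

open Finset Pool.Agent.Helper51.BN Pool.Agent.Helper51.ST

variable {V : Type*} [Fintype V] [DecidableEq V] {G : SimpleGraph V}

omit [Fintype V] in
/-- A new leaf can be attached at any vertex. -/
private theorem add_leaf {x : RT} {S : Finset V} {r : V} (H : Tr G x S r) {v : V} :
    ∀ u ∈ S, G.Adj u v → v ∉ S → ∃ x', Tr G x' (insert v S) r := by
  induction H with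
  | pt r =>
    intro u hu huv hv
    rw [mem_singleton] at hu
    subst hu
    have h1 := Tr.ext u (Tr.pt (G := G) v) huv (by
      rw [mem_singleton]
      exact huv.ne)
    rw [show insert u ({v} : Finset V) = insert v {u} from Finset.pair_comm u v] at h1
    exact ⟨_, h1⟩
  | @ext x S c r H hadj hr ih =>
    intro u hu huv hv
    rw [mem_insert, not_or] at hv
    obtain ⟨hvr, hvS⟩ := hv
    rcases mem_insert.1 hu with rfl | hu
    · have h1 := Tr.join (Tr.ext u H hadj hr) (Tr.ext u (Tr.pt (G := G) v) huv (by
        rw [mem_singleton]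
        exact huv.ne)) (by
        ext z
        simp only [mem_inter, mem_insert, mem_singleton]
        constructor
        · rintro ⟨h2 | h2, h3 | h3⟩
          · exact h2
          · exact h2
          · exact h3
          · subst h3
            exact absurd h2 hvS
        · intro h2
          exact ⟨Or.inl h2, Or.inl h2⟩)
      have h2 : insert u S ∪ insert u {v} = insert v (insert u S) := by
        ext z
        simp only [mem_union, mem_insert, mem_singleton]
        tauto
      rw [h2] at h1
      exact ⟨_, h1⟩
    · obtain ⟨x', h1⟩ := ih u hu huv hvS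
      rw [Finset.insert_comm]
      exact ⟨_, Tr.ext r h1 hadj (by
        rw [mem_insert, not_or]
        exact ⟨fun h => hvr h.symm, hr⟩)⟩
  | @join x y S T r H1 H2 hST ih1 ih2 =>
    intro u hu huv hv
    rw [mem_union, not_or] at hv
    obtain ⟨hvS, hvT⟩ := hv
    rcases mem_union.1 hu with hu | hu
    · obtain ⟨x', h1⟩ := ih1 u hu huv hvS
      have h2 := Tr.join h1 H2 (by rw [insert_inter_of_notMem hvT, hST])
      rw [insert_union] at h2
      exact ⟨_, h2⟩
    · obtain ⟨x', h1⟩ := ih2 u hu huv hvT
      have h2 := Tr.join H1 h1 (by rw [inter_insert_of_notMem hvS, hST])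
      rw [union_insert] at h2
      exact ⟨_, h2⟩

/-- Every vertex is the root of a spanning tree with a shape. -/
theorem exists_tr_root (hG : G.Connected) (r : V) : ∃ x : RT, Tr G x univ r := by
  have key : ∀ e, e < Fintype.card V →
      ∃ (x : RT) (S : Finset V), Tr G x S r ∧ S.card = e + 1 := by
    intro e
    induction e with
    | zero =>
      intro _
      exact ⟨RT.pt, {r}, Tr.pt r, by simp⟩
    | succ e ih =>
      intro he
      obtain ⟨x, S, H, hS⟩ := ih (by omega)
      have h1 : ∃ v, v ∉ S := by
        by_contra hcon
        push Not at hcon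
        have h2 : S = univ := Finset.eq_univ_iff_forall.2 hcon
        rw [h2, card_univ] at hS
        omega
      obtain ⟨v, hv⟩ := h1
      obtain ⟨p⟩ := hG.preconnected r v
      obtain ⟨d, -, hd1, hd2⟩ := p.exists_boundary_dart (S : Set V) (by exact_mod_cast H.mem)
        (by exact_mod_cast hv)
      have hd1' : d.fst ∈ S := by exact_mod_cast hd1
      have hd2' : d.snd ∉ S := by exact_mod_cast hd2
      obtain ⟨x', H'⟩ := add_leaf H d.fst hd1' d.adj hd2'
      exact ⟨x', insert d.snd S, H', by rw [card_insert_of_notMem hd2', hS]⟩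
  have hpos : 0 < Fintype.card V := Fintype.card_pos_iff.2 hG.nonempty
  obtain ⟨x, S, H, hS⟩ := key (Fintype.card V - 1) (by omega)
  have h1 : S = univ := by
    rw [← Finset.card_eq_iff_eq_univ, hS]
    omega
  rw [h1] at H
  exact ⟨x, H⟩

end Pool.Agent.Helper51.GL
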